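import Pool.Agent.R187.CT.Base
import Pool.Agent.H176.DT.H13
import Pool.Agent.W5h94.SP.Lift
import Pool.Agent.W5h94.WP.Semi9

/-!
MP_1a953e_ag: semistable uniformization of wild points of `X^ad`, of arbitrary rank and support, in
all dimensions.

Let `k` be a (complete) discretely valued field with the ring of integers `O`, the uniformizer `π`
and the residue characteristic `p > 0`; if `k` has characteristic `p`, suppose that `k` is
`F`-finite. Let `X` be an integral projective `k`-scheme of any dimension with the function field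
`K`, with the projective flat model `𝒳` over `O`. The points of the adic space `X^ad` are the pairs
`(Z, U)` of an integral closed subscheme `Z` of `X`, the support, and a valuation ring `U ⊇ O` of the
residue field `κ(Z)` of its generic point such that `π` is topologically nilpotent in `U`; all
supports (also `Z = X`) and all ranks are allowed. Let `X` be regular at the generic point of `Z`,
which holds if `X` is rig-smooth, and let `U` be reachable, that is, let `U` belong to the smallest
class of valuations which contains the trivial, discrete, divergent and known ones, the composites,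
and the towers without defect.

The known results need that `|π|` is not a `p`-th power in the value group of `U`; then tamely
ramified extensions of `k` are sufficient for points of rank one. Here `|π|` is a `p`-th power in the
value group. We suppose only that the leading form of `π` is not a `p`-th power in the graded ring of
the valuation, that is, `|π - z ^ p| < |π|` for no `z ∈ κ(Z)`. Then there are numbers `D`, `N₀` such
that, for every `N ≥ N₀` divisible by `D`, for `l = k(ϖ)`, `ϖ ^ N = π`, with the ring of integers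
`O[ϖ]` (this extension is wildly ramified if `p` divides `N`), and for the preimages of the point
`(Z, U)` in the adic space of `X_l`, a blowing-up of `𝒳 ⊗ O[ϖ]` in a closed subscheme of the special
fibre, that is, an admissible blowing-up, is semistable at the specialization of the preimage: its
local ring is regular, and `ϖ` is a product of distinct elements of a regular system of parameters.

For example, let `U` be the valuation of `k(t)` with `|t ^ p| = |π|` for which the residue `τ` of
`t ^ p / π` is transcendental. More generally, the value group can be infinitely `p`-divisible; then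
`|π|` (and every uniformizer) is a `p`-th power in the value group also after all finite extensions of
`k`, and no other result applies. For example, for perfect `k~ = O / π`, let `U` be the valuation of
`k(t, y)` which is defined over this valuation of `k(t)` by an infinite sequence of key polynomials
`y`, `y ^ p - t`, ... with the relative ramification indices `p` and linear residual polynomials. Then
the value group is `ℤ[1 / p]` and the residue field is `k~(τ)`, and the leading form of `π` is not a
`p`-th power, because `τ` is not a `p`-th power in the residue field.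

In the theorem the point is given by a valuation ring `V ⊇ O` of `K` with `|π| < 1`, in which `π`
need not be topologically nilpotent: `V₁ = V[1 / π]` is a valuation ring, `Z` is the centre of `V₁`
on `X`, and `U` is the valuation ring of `κ(Z)` which is induced by `V`. All the points arise in this
way, with `V₁` whose residue field is `κ(Z)` (as `X` is regular at `Z`, there is such a composite
`V₁` of discrete valuation rings; let `V` be the composite of `V₁` and `U`), and then all preimages
of `(Z, U)` in the adic space of `X_l` arise in the same way from the valuation rings `V'` over `V`.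
The specialization of the point in a model is the centre of `V` (of `V'`).

The new part of the proof is the passage to the wildly ramified extension: if `π = u * x ^ γ` in a
regular local ring of a model, with a unit `u`, and if the exponents `γ` have the greatest common
divisor `d`, then the root of degree `d` of the unit `u` has to be adjoined. If `p` divides `d`, this
is not an etale extension, but it is still regular with the same parameters `x`, since the residue of
`u` is not a `p`-th power (`insep_step`, `rs_all`). (In equal characteristic `p` the extension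
`k(ϖ) / k` is inseparable if `p` divides `N`; so uniformizability in the strict sense follows there
only for `D` prime to `p`.)
-/

set_option autoImplicit false

universe u

namespace Pool.Agent.Results.MP_1a953e_ag.WildPoints

open IsLocalRing Pool.Agent.W418.LU2 Pool.Agent.TH188.QS

/-- The local ring of `Spec B` at the centre of the valuation ring `V`: the fractions of elements
of `B` whose denominators are units of `V`. -/
def centreRing {F : Type u} [Field F] (V : ValuationSubring F) (B : Subring F) : Subring F where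
  carrier := {x | ∃ a ∈ B, ∃ b ∈ B, b ≠ 0 ∧ b⁻¹ ∈ V ∧ x = a * b⁻¹}
  mul_mem' := (lo V.toSubring B).mul_mem'
  one_mem' := (lo V.toSubring B).one_mem'
  add_mem' := (lo V.toSubring B).add_mem'
  zero_mem' := (lo V.toSubring B).zero_mem'
  neg_mem' := (lo V.toSubring B).neg_mem'

/-- The subring `P` of the field `K` is a regular local ring, and `ϖ` is the product of some (at
least one) of the elements of a regular system of parameters. (If `ϖ` is a uniformizer of a discrete
valuation ring `O` with perfect residue field and `P` is the local ring of an integral flat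
`O`-scheme of finite type at a point of the special fibre, then these elements `t i` define a
morphism from a neighbourhood of this point to `Spec O[t 0, ..., t d] / (t 0 * ... * t d - ϖ)` which
is flat with regular, hence smooth, fibre through this point; so it is smooth there.) -/
def IsSemistable {K : Type u} [Field K] (P : Subring K) (ϖ : K) : Prop :=
  ∃ (_ : IsRegularLocalRing P) (n : ℕ) (x : Fin n → P) (S : Finset (Fin n)),
    Ideal.span (Set.range x) = IsLocalRing.maximalIdeal P ∧ ringKrullDim P = n ∧
      S.Nonempty ∧ ϖ = ∏ i ∈ S, (x i : K)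

/-- The coordinate ring `O[v / w : v ∈ W]` of the chart `w ≠ 0` of the projective `O`-scheme
`Proj O[W]` with the function field `K` and the homogeneous coordinates `W ⊆ K`. -/
def chart {K : Type u} [Field K] (O : Subring K) (W : Set K) (w : K) : Subring K :=
  Subring.closure ((O : Set K) ∪ {z | ∃ v ∈ W, z = v / w})

/-- `Y` is a finite set of forms of some degree `d` over `O` in the homogeneous coordinates `W`,
and `p ^ n` times any form of degree `d` is a linear combination of the forms in `Y`, for some `n`.
So the closed subscheme of `Proj O[W]` defined by the forms in `Y` is contained in the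
fibre over `p`. -/
def IsVerticalCentre {K : Type u} [Field K] (O : Subring K) (p : K) (W Y : Set K) : Prop :=
  Y.Finite ∧ ∃ d n : ℕ, Y ⊆ ((Submodule.span O W) ^ d : Submodule O K) ∧
    ∀ z ∈ (Submodule.span O W) ^ d, p ^ n * z ∈ Submodule.span O Y

/-- The homogeneous coordinates of the blowing-up of `Proj O[W]` in the closed subscheme which is
defined by the forms in `Y`. -/
def blowUpCoordinates {K : Type u} [Field K] (W Y : Set K) : Set K :=
  {z | ∃ y ∈ Y, ∃ v ∈ W, z = y * v}

/-- The projective scheme `Proj O[W]` is semistable at the centre of `V`, which lies in the chart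
`w ≠ 0`. -/
def IsSemistableAt {K : Type u} [Field K] (V : ValuationSubring K) (O : Subring K) (W : Set K)
    (ϖ : K) : Prop :=
  ∃ w ∈ W, w ≠ 0 ∧ (∀ v ∈ W, v / w ∈ V) ∧ IsSemistable (centreRing V (chart O W w)) ϖ

/-- The ring `O[ϖ]`. (If `O` is a discrete valuation ring with the uniformizer `π = ϖ ^ N`, then it
is the ring of integers of the totally ramified extension `k(ϖ)` of the field of fractions `k` of
`O`.) -/
def ramifiedRing {L K' : Type u} [Field L] [Field K'] (φ : L →+* K') (O : Subring L) (ϖ : K') :
    Subring K' :=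
  Subring.closure ((O.map φ : Set K') ∪ {ϖ})

/-- `K' = K(ϖ)` with `ϖ ^ N = π`, and `V'` is a valuation ring of `K'` over the valuation ring `V`
of `K`. -/
def IsLift {K K' : Type u} [Field K] [Field K'] [Algebra K K'] (V : ValuationSubring K) (π : K)
    (N : ℕ) (V' : ValuationSubring K') (ϖ : K') : Prop :=
  V'.comap (algebraMap K K') = V ∧ ϖ ^ N = algebraMap K K' π ∧
    ∀ z : K', z ∈ Subfield.closure (Set.range (algebraMap K K') ∪ {ϖ})

/-- The chart `A[I / f]` of the blowing-up of `Spec A` in the ideal `I`. -/
def blowUpChart {F : Type u} [Field F] (A : Subring F) (I : Ideal A) (f : A) : Subring F :=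
  Subring.closure ((A : Set F) ∪ {z | ∃ a ∈ I, z = (a : F) / (f : F)})

/-- `P` is a regular local ring and the zero set of `J` is a divisor with strict normal
crossings: the radical of `J` is generated by the product of some of the elements of a regular
system of parameters. -/
def RegularPair (P : Type u) [CommRing P] (J : Ideal P) : Prop :=
  ∃ (_ : IsRegularLocalRing P) (n : ℕ) (x : Fin n → P) (s : Finset (Fin n)),
    Ideal.span (Set.range x) = IsLocalRing.maximalIdeal P ∧ ringKrullDim P = n ∧
      J.radical = Ideal.span {∏ i ∈ s, x i}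

/-- The blowing-up of `X = Spec A` in `V(I)` is a log desingularization of `(X, V(D))` along the
valuation ring `V`. Here `f ∈ I` generates `I V`, the centre of the lift of the valuation lies in
the chart `Spec A[I / f]`, and the ideal `D I` defines the preimage of `V(D) ∪ V(I)`. -/
def IsLogDesingularization {F : Type u} [Field F] (V : ValuationSubring F) (A : Subring F)
    (D I : Ideal A) : Prop :=
  ∃ f ∈ I, f ≠ 0 ∧ (∀ a ∈ I, (a : F) / (f : F) ∈ V) ∧
    RegularPair (centreRing V (blowUpChart A I f))
      (Ideal.span {z | ∃ a ∈ D * I, (z : F) = (a : F)})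

/-- The valuation ring `V` is log uniformizable on `Spec A`. (The blowings-up in the ideals
`I₀ * I₁` are cofinal: the blowing-up in `I₀ * I₁` factors through the blowing-up in `I₀`.) -/
def IsLogUniformizable {F : Type u} [Field F] (V : ValuationSubring F) (A : Subring F) : Prop :=
  ∀ D I₀ : Ideal A, D ≠ ⊥ → I₀ ≠ ⊥ →
    ∃ I₁ : Ideal A, I₁ ≠ ⊥ ∧ IsLogDesingularization V A D (I₀ * I₁)

/-- A ring of prime characteristic `p` which is a finite module over its ring of `p`-th powers. -/
def IsFFinite (R : Type u) [CommRing R] : Prop :=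
  ∃ (p : ℕ) (_ : Fact p.Prime) (_ : CharP R p), (frobenius R p).Finite

/-- The image of the `R`-algebra generated by `T`. -/
def adjoined {R K : Type u} [CommRing R] [Field K] (ρ : R →+* K) (T : Set K) : Subring K :=
  Subring.closure ((ρ.range : Set K) ∪ T)

/-- The quadratic transform of `Q` along `V`: the local ring, at the centre of `V`, of the
blowing-up of `Spec Q` in the centre of `V`. -/
def quadraticTransform {K : Type u} [Field K] (V : ValuationSubring K) (Q : Subring K) :
    Subring K :=
  centreRing V (Subring.closure ((Q : Set K) ∪ {t | ∃ y ∈ Q, ∃ z ∈ Q,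
    V.valuation y < 1 ∧ z ≠ 0 ∧ V.valuation z < 1 ∧
      (∀ w ∈ Q, V.valuation w < 1 → V.valuation w ≤ V.valuation z) ∧ t = y / z}))

/-- The sequence of quadratic transforms of the local ring of `Spec A` at the centre of `V`. -/
def quadraticSequence {K : Type u} [Field K] (V : ValuationSubring K) (A : Subring K) :
    ℕ → Subring K
  | 0 => centreRing V A
  | n + 1 => quadraticTransform V (quadraticSequence V A n)

/-- The values of the maximal ideals in the sequence of quadratic transforms have an infinite sum:
every value of `V` is exceeded by the value of all products `z 0 * ... * z (n - 1)` of elements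
`z i` of the maximal ideals of the rings of the sequence, for some `n`. -/
def IsDivergent {K : Type u} [Field K] (V : ValuationSubring K) (A : Subring K) : Prop :=
  ∀ x : K, x ≠ 0 → ∃ n : ℕ, ∀ z : ℕ → K,
    (∀ i < n, z i ∈ quadraticSequence V A i ∧ z i ≠ 0 ∧ V.valuation (z i) < 1) →
      V.valuation (∏ i ∈ Finset.range n, z i) < V.valuation x

/-- `V` is the composite of the valuation ring `V₁` and the valuation ring `W` of its residue
field. -/
def IsComposite {K : Type u} [Field K] (V V₁ : ValuationSubring K)
    (W : ValuationSubring (ResidueField V₁)) : Prop :=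
  ∀ z : K, z ∈ V ↔ ∃ hz : z ∈ V₁, residue V₁ ⟨z, hz⟩ ∈ W

section key

open Polynomial

variable {K : Type u} [Field K] (V : ValuationSubring K) {L : Subfield K} (θ : K)

/-- The monic polynomial `ϕ` over `L` of positive degree is a key polynomial for the valuation
`f ↦ |f(θ)|` of polynomials: if `f` and `g` are nonzero polynomials of smaller degree and
`f g = q ϕ + r` with `deg r < deg ϕ`, then `|q(θ) ϕ(θ)| < |f(θ) g(θ)|`. (So `|r(θ)| = |f(θ) g(θ)|`,
and the values of the polynomials of smaller degree define a valuation of `L[X] / (ϕ)`.) -/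
def IsKey (ϕ : L[X]) : Prop :=
  ϕ.Monic ∧ 0 < ϕ.natDegree ∧ ∀ f g : L[X], f.degree < ϕ.degree → g.degree < ϕ.degree →
    f ≠ 0 → g ≠ 0 → V.valuation (aeval θ (f * g /ₘ ϕ * ϕ)) < V.valuation (aeval θ (f * g))

/-- The polynomials of degree less than the degree of `ϕ` have an orthogonal basis over `L` with
respect to the valuation `f ↦ |f(θ)|`. (For a key polynomial `ϕ` this means that the valued field
`L[X] / (ϕ)` is an extension of `L` of degree `e f`. It holds if there are no limit key
polynomials of degree at most `deg ϕ`.) -/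
def IsDefectless (ϕ : L[X]) : Prop :=
  ∃ (n : ℕ) (β : Fin n → L[X]), (∀ i, (β i).degree < ϕ.degree ∧ β i ≠ 0) ∧
    (∀ f : L[X], f.degree < ϕ.degree → ∃ c : Fin n → L, f = ∑ i, C (c i) * β i) ∧
    ∀ (c : Fin n → L) (i : Fin n), V.valuation (aeval θ (C (c i) * β i)) ≤
      V.valuation (aeval θ (∑ j, C (c j) * β j))

/-- The value of `f(θ)` is determined by `ϕ`: in the `ϕ`-adic expansion `f = ∑ f_k ϕ ^ k` with
`deg f_k < deg ϕ` the value of no term at `θ` is greater than the value of `f(θ)`. -/
def IsDetermined (ϕ f : L[X]) : Prop :=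
  ∃ (N : ℕ) (d : ℕ → L[X]), (∀ k, (d k).degree < ϕ.degree) ∧
    f = ∑ k ∈ Finset.range N, d k * ϕ ^ k ∧
    ∀ k < N, V.valuation (aeval θ (d k * ϕ ^ k)) ≤ V.valuation (aeval θ f)

end key

open Polynomial in
/-- The extension `L ⊆ L'` of subfields of `K` is finite and has no defect with respect to the
valuation ring `V` of `K`. That is, for some valuation ring `W` over `V` of some extension field
`M` of `K`, some root `ζ ∈ M` of a monic polynomial `f` over `V ∩ L` with `|f'(ζ)| = 1`, and some
nonzero elements `β i` of `L'`, the field `L'(ζ)` is the sum of the lines `L(ζ) β i`, and the `β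
i` are orthogonal over `L(ζ) = L[ζ]`. (The extension `L(ζ) / L` is unramified. If `L^h ⊆ L'^h ⊆
K^h` are the henselizations for `V` and `[L'^h : L^h] = e f`, then this holds with `M = K^h`,
`L(ζ)` a large finite subextension of `L^h / L`, and with products of `e` elements of `L'` whose
values represent the cosets of the value group and `f` elements of `L'` whose residues form a
basis for the `β i`. For `M = K` and `L(ζ) = L` it is the condition `[L' : L] = e f`.) -/
def IsFiniteWithoutDefect {K : Type u} [Field K] (V : ValuationSubring K) (L L' : Subfield K) :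
    Prop :=
  L ≤ L' ∧ ∃ (M : Type u) (_ : Field M) (_ : Algebra K M) (W : ValuationSubring M) (ζ : M)
    (f : L[X]) (n : ℕ) (β : Fin n → K), W.comap (algebraMap K M) = V ∧ f.Monic ∧
    (∀ i, (f.coeff i : K) ∈ V) ∧ eval₂ ((algebraMap K M).comp L.subtype) ζ f = 0 ∧
    W.valuation (eval₂ ((algebraMap K M).comp L.subtype) ζ (derivative f)) = 1 ∧
    (∀ i, β i ∈ L' ∧ β i ≠ 0) ∧
    (∀ z ∈ L', ∃ c : Fin n → L[X], algebraMap K M z =
      ∑ i, eval₂ ((algebraMap K M).comp L.subtype) ζ (c i) * algebraMap K M (β i)) ∧
    ∀ (c : Fin n → L[X]) (i : Fin n),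
      W.valuation (eval₂ ((algebraMap K M).comp L.subtype) ζ (c i) * algebraMap K M (β i)) ≤
        W.valuation (∑ j, eval₂ ((algebraMap K M).comp L.subtype) ζ (c j) * algebraMap K M (β j))

open Polynomial in
/-- The subfields `L` of `K` which are reached from the field `E` by a tower of steps without
defect with respect to the valuation ring `V` of `K`. -/
inductive Tower (E : Type u) {K : Type u} [Field E] [Field K] [Algebra E K]
    (V : ValuationSubring K) : Subfield K → Prop
  /-- The tower starts with (the image of) `E`. -/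
  | base : Tower E V (algebraMap E K).fieldRange
  /-- The step from `L` to `L(t)`, where `t` is transcendental and the value of every polynomial in
  `t` is determined by a defectless key polynomial. (This holds if the valuation of `L(t)` has no
  limit key polynomials; for example, if `L` is algebraically closed, if `t` is a limit of a
  pseudo-convergent sequence of transcendental type, or if the value or the residue of a
  defectless key polynomial at `t` is transcendental over `L`.) -/
  | transcendental (L : Subfield K) (t : K) : Tower E V L → Transcendental L t →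
    (∀ f : L[X], ∃ ϕ : L[X], IsKey V t ϕ ∧ IsDefectless V t ϕ ∧ IsDetermined V t ϕ f) →
    Tower E V (L ⊔ Subfield.closure {t})
  /-- The step from `L` to a finite extension `L'` without defect. -/
  | finite (L L' : Subfield K) : Tower E V L → IsFiniteWithoutDefect V L L' → Tower E V L'

/-- Every element of the field `K` is a fraction of elements of `A`. -/
def HasFractionField {K : Type u} [Field K] (A : Subring K) : Prop :=
  ∀ z : K, ∃ a ∈ A, ∃ b ∈ A, b ≠ 0 ∧ z = a * b⁻¹

/-- The field `K` is finitely generated over `R`: it is the fraction field of an `R`-algebra of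
finite type. -/
def IsFinitelyGenerated {R K : Type u} [CommRing R] [Field K] (ρ : R →+* K) : Prop :=
  ∃ T : Set K, T.Finite ∧ HasFractionField (adjoined ρ T)

/-- The class of valuations (of fields over `R`) which are reached from the discrete and divergent
ones and from known ones by compositions and by towers without defect. -/
inductive Reachable (R : Type u) [CommRing R] :
    ∀ {K : Type u} [Field K], (R →+* K) → ValuationSubring K → Prop
  /-- The trivial valuations. -/
  | trivial {K : Type u} [Field K] (ρ : R →+* K) : Reachable R ρ (⊤ : ValuationSubring K)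
  /-- The discrete valuations of rank one, and the valuations with divergent sequences of quadratic
  transforms of all `R`-algebras of finite type. -/
  | divergent {K : Type u} [Field K] (ρ : R →+* K) (V : ValuationSubring K) :
    (IsDiscreteValuationRing V ∨ ∀ T : Set K, T.Finite → adjoined ρ T ≤ V.toSubring →
      IsDivergent V (adjoined ρ T)) → Reachable R ρ V
  /-- The valuations of a finitely generated field which are log uniformizable on the spectra of all
  `R`-algebras of finite type with this fraction field. -/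
  | known {K : Type u} [Field K] (ρ : R →+* K) (V : ValuationSubring K) : IsFinitelyGenerated ρ →
    (∀ T : Set K, T.Finite → adjoined ρ T ≤ V.toSubring → HasFractionField (adjoined ρ T) →
      IsLogUniformizable V (adjoined ρ T)) → Reachable R ρ V
  /-- The composites of a valuation ring `V₁` and a valuation ring `W` of its residue field. -/
  | composite {K : Type u} [Field K] (ρ : R →+* K) (V V₁ : ValuationSubring K)
    (W : ValuationSubring (ResidueField V₁)) (hρ : ∀ a, ρ a ∈ V₁.toSubring) :
    IsComposite V V₁ W → Reachable R ρ V₁ →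
    Reachable R ((residue V₁).comp (ρ.codRestrict V₁.toSubring hρ)) W → Reachable R ρ V
  /-- The valuations of a field `K` which is reached by a tower without defect from a finitely
  generated field `E` whose valuation is in the class. -/
  | tower {E K : Type u} [Field E] [Field K] [Algebra E K] (ρ : R →+* E)
    (V : ValuationSubring K) : (∀ a, algebraMap E K (ρ a) ∈ V) → IsFinitelyGenerated ρ →
    Reachable R ρ (V.comap (algebraMap E K)) → Tower E V ⊤ →
    Reachable R ((algebraMap E K).comp ρ) V

lemma quadraticSequence_eq {K : Type u} [Field K] (V : ValuationSubring K) (A : Subring K) :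
    quadraticSequence V A = qseq V A := by
  funext n
  induction n with
  | zero => rfl
  | succ n ih =>
    change quadraticTransform V (quadraticSequence V A n) = qt V.toSubring (qseq V A n)
    rw [ih, qt_val]
    rfl

lemma IsDivergent.dv {K : Type u} [Field K] {V : ValuationSubring K} {A : Subring K}
    (h : IsDivergent V A) : Dv V (qseq V A) := by
  rw [← quadraticSequence_eq]
  exact dv_of_lt h

/-- The steps of a tower. -/
lemma Tower.inv {E K : Type u} [Field E] [Field K] [Algebra E K] {V : ValuationSubring K}
    {R' : Subring K} (h0 : Pool.Agent.H176.DT.Inv V R' (algebraMap E K).fieldRange.subtype)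
    {L : Subfield K} (hL : Tower E V L) : Pool.Agent.H176.DT.Inv V R' L.subtype := by
  have kp : ∀ {L : Subfield K} {θ : K} {ϕ : Polynomial L}, IsKey V θ ϕ → IsDefectless V θ ϕ →
      ∃ (n : ℕ) (β : Fin n → Polynomial L), Pool.Agent.H176.DT.KP V θ ϕ β := by
    rintro L θ ϕ ⟨h1, h2, h3⟩ ⟨n, β, h4, h5, h6⟩
    exact ⟨n, β, h1, h2, fun i => (h4 i).1, fun i => (h4 i).2, h5, h6, h3⟩
  induction hL with
  | base => exact h0
  | transcendental L t _ ht hdom ih =>
    refine Pool.Agent.H176.DT.sub_trans V _ t ht (fun f => ?_) ih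
    obtain ⟨ϕ, h1, h2, N, d, h3, h4, h5⟩ := hdom f
    obtain ⟨n, β, h6⟩ := kp h1 h2
    exact ⟨ϕ, n, β, h6, N, d, ⟨h3, h4⟩, h5⟩
  | finite L L' _ hnd ih => exact Pool.Agent.H176.DT.sub_nd V _ hnd.1 hnd.2 ih

lemma Reachable.good {R : Type u} [CommRing R] (hR : HJ R) {K : Type u} [Field K]
    {ρ : R →+* K} {V : ValuationSubring K} (h : Reachable R ρ V) : Pool.Agent.R187.CT.Good ρ V := by
  induction h with
  | trivial ρ => exact Pool.Agent.R187.CT.good_top ρ
  | divergent ρ V h =>
    exact Pool.Agent.R187.CT.good_dv hR ρ V (h.imp_right fun h T hT hTV => (h T hT hTV).dv)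
  | known ρ V hK h => exact Pool.Agent.R187.CT.good_given hR ρ V hK h
  | composite ρ V V₁ W hρ hc _ _ ih₁ ihW =>
    exact Pool.Agent.R187.CT.good_comp hR ρ hρ hc ih₁ ihW
  | tower ρ V hρ hE _ ht ih =>
    exact Pool.Agent.R187.CT.good_tower hR ρ V hρ hE ih fun R' h0 => ht.inv h0

lemma hj {O : Type u} [CommRing O] [IsDedekindDomain O] (h : CharZero O ∨ IsFFinite O) :
    HJ O := by
  rcases h with h | h
  · exact hj_dedekind
  · apply BR.hj
    intro 𝔭 h𝔭
    exact Or.inr ⟨O, inferInstance, inferInstance, inferInstance, Ideal.Quotient.mk 𝔭,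
      RingHom.FiniteType.of_surjective _ Ideal.Quotient.mk_surjective, Or.inl h⟩

/-- The valuation ring `V` of `K` induces the point `(Z, U)`: `V₁ = V[1 / π]`, `Q` is the local ring
of the projective scheme `Proj O[W]` at the centre `Z` of `V₁`, which lies in the chart `w ≠ 0`, `U`
is the valuation ring which `V` induces on the residue field `κ(Z)` of `Q`, and `ρ` is the map from
`O` to `κ(Z)`. -/
structure Induces {K : Type u} [Field K] (V : ValuationSubring K) (O : Subring K) (π : O)
    (W : Set K) (w : K) (V₁ : ValuationSubring K) (Q : Subring K) [IsLocalRing Q]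
    (U : ValuationSubring (ResidueField Q)) (ρ : O →+* ResidueField Q) : Prop where
  mem_iff : ∀ z : K, z ∈ V₁ ↔ ∃ n : ℕ, (π : K) ^ n * z ∈ V
  eq : centreRing V₁ (chart O W w) = Q
  residue_mem_iff : ∀ z : Q, residue Q z ∈ U ↔ (z : K) ∈ V
  map_eq : ∀ (a : O) (h : (a : K) ∈ Q), ρ a = residue Q ⟨a, h⟩

/-- There are `K' = K(ϖ)`, `ϖ ^ N = π`, and valuation rings `V'` of `K'` over `V`, and for all such
`K'` and `V'` there is a closed subscheme of the fibre of `Proj O[W] ⊗ O[ϖ]` over `ϖ = 0` such that
the blowing-up in this subscheme (the component with the function field `K'`) is semistable at the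
centre of `V'`. -/
def HasSemistableBlowUps {K : Type u} [Field K] (V : ValuationSubring K) (O : Subring K) (π : K)
    (W : Set K) (N : ℕ) : Prop :=
  (∃ (K' : Type u) (_ : Field K') (_ : Algebra K K') (V' : ValuationSubring K') (ϖ : K'),
    IsLift V π N V' ϖ) ∧
  ∀ (K' : Type u) [Field K'] [Algebra K K'] (V' : ValuationSubring K') (ϖ : K'),
    IsLift V π N V' ϖ → ∃ Y : Set K',
      IsVerticalCentre (ramifiedRing (algebraMap K K') O ϖ) ϖ (algebraMap K K' '' W) Y ∧
      IsSemistableAt V' (ramifiedRing (algebraMap K K') O ϖ)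
        (blowUpCoordinates (algebraMap K K' '' W) Y) ϖ

/-- The proof, with a name for the local ring. -/
theorem core {K : Type u} [Field K] (V V₁ : ValuationSubring K)
    (O : Subring K) [IsDedekindDomain O] (hO : CharZero O ∨ IsFFinite O) (hOV : ∀ a ∈ O, a ∈ V)
    (π : K) (hπ : π ∈ O) (hπ0 : π ≠ 0) (hπ1 : V.valuation π < 1)
    (hV₁ : ∀ z : K, z ∈ V₁ ↔ ∃ n : ℕ, π ^ n * z ∈ V)
    (W : Set K) (hW : W.Finite) (w : K) (hw : w ∈ W) (hw0 : w ≠ 0)
    (hwV : ∀ z ∈ W, z / w ∈ V) (hWK : HasFractionField (chart O W w))
    (Q : Subring K) (hQ : lo V₁.toSubring (chart O W w) = Q) [IsRegularLocalRing Q]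
    (U : ValuationSubring (ResidueField Q))
    (hU : ∀ z : Q, residue Q z ∈ U ↔ (z : K) ∈ V)
    (ρ : O →+* ResidueField Q) (hρ : ∀ (a : O) (h : (a : K) ∈ Q), ρ a = residue Q ⟨a, h⟩)
    (hUr : Reachable O ρ U)
    (hlead : ∀ p : ℕ, p.Prime → U.valuation (p : ResidueField Q) < 1 →
      ∀ z, U.valuation (ρ ⟨π, hπ⟩) ≤ U.valuation (ρ ⟨π, hπ⟩ - z ^ p)) :
    ∃ (D N₀ : ℕ) (ζ : ResidueField Q), 0 < D ∧ ζ ≠ 0 ∧
      (∀ n : ℤ, U.valuation (ρ ⟨π, hπ⟩) ≤ U.valuation ((ρ ⟨π, hπ⟩ / ζ ^ D) ^ n)) ∧
      ∀ N : ℕ, N₀ ≤ N → D ∣ N →
        (∃ (K' : Type u) (_ : Field K') (_ : Algebra K K') (V' : ValuationSubring K') (ϖ : K'),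
          IsLift V π N V' ϖ) ∧
        ∀ {K' : Type u} [Field K'] [Algebra K K'] (V' : ValuationSubring K') (ϖ : K'),
          IsLift V π N V' ϖ →
          ∃ Y : Set K',
            IsVerticalCentre (ramifiedRing (algebraMap K K') O ϖ) ϖ (algebraMap K K' '' W) Y ∧
            IsSemistableAt V' (ramifiedRing (algebraMap K K') O ϖ)
              (blowUpCoordinates (algebraMap K K' '' W) Y) ϖ := by
  classical
  have hA : chart O W w ≤ V.toSubring := by
    unfold chart
    rw [Subring.closure_le]
    rintro z (hz | ⟨y, hy, rfl⟩)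
    · exact hOV z hz
    · exact hwV y hy
  have hMod : Pool.Agent.H176.DT.Mod V (chart O W w) := ⟨hA, hWK⟩
  have hR : HJ O := hj hO
  have hVV : V ≤ V₁ := fun z hz => (hV₁ z).2 ⟨0, by rwa [pow_zero, one_mul]⟩
  have hmV : ∀ z, V₁.valuation z < 1 → z ∈ V := by
    intro z hz
    by_contra hzV
    have h1 := hVV ((V.mem_or_inv_mem z).resolve_left hzV)
    have h2 : z ≠ 0 := fun h => hzV (by rw [h]; exact V.zero_mem)
    exact nu_iff.2 hz ⟨h2, h1⟩
  have hπ₁ : π⁻¹ ∈ V₁ := (hV₁ _).2 ⟨1, by
    rw [pow_one, mul_inv_cancel₀ hπ0]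
    exact V.one_mem⟩
  have hA₁ : chart O W w ≤ V₁.toSubring := fun a ha => hVV (hA ha)
  have hQV₁ : Q ≤ V₁.toSubring := by rw [← hQ]; exact lo_le hA₁
  have hAQ : chart O W w ≤ Q := by rw [← hQ]; exact le_lo _ _
  have hOA : ∀ z ∈ O, z ∈ chart O W w := fun z hz => Subring.subset_closure (Or.inl hz)
  have hQi : ∀ z ∈ Q, z ≠ 0 → z⁻¹ ∈ V₁.toSubring → z⁻¹ ∈ Q := by
    intro z hz h0 h1
    rw [← hQ] at hz ⊢
    exact inv_mem_lo hA₁ hz h0 h1
  have hFr : IsFractionRing Q K := by
    apply IsFractionRing.of_field
    intro z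
    obtain ⟨a, ha, b, hb, hb0, rfl⟩ := hWK z
    exact ⟨⟨a, hAQ ha⟩, ⟨b, hAQ hb⟩, (div_eq_mul_inv a b).symm⟩
  have hprV : ∀ {z : K} {u : ResidueField Q}, Pr (residue Q) z u → (z ∈ V ↔ u ∈ U) := by
    intro z u h
    rw [h.unique (Pool.Agent.W5h94.SP.q_pr (Pool.Agent.W5h94.SP.q_mem h))]
    exact (hU ⟨z, Pool.Agent.W5h94.SP.q_mem h⟩).symm
  have hpr0 : ∀ {z : K} {u : ResidueField Q}, Pr (residue Q) z u → (u = 0 ↔ V₁.valuation z < 1) :=
    fun h => Pool.Agent.W5h94.SP.q_zero_iff hQV₁ hQi h
  have hρr : ∀ a : O, Pr (residue Q) (a : K) (ρ a) := by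
    intro a
    rw [hρ a (hAQ (hOA a a.2))]
    exact Pool.Agent.W5h94.SP.q_pr _
  let rs : K → ResidueField Q := fun z => if hz : z ∈ Q then residue Q ⟨z, hz⟩ else 0
  have hrs : ∀ z ∈ Q, Pr (residue Q) z (rs z) := by
    intro z hz
    simp only [rs, dif_pos hz]
    exact Pool.Agent.W5h94.SP.q_pr hz
  -- comparison of the values
  have hval : ∀ {z z' : K} {u u' : ResidueField Q}, Pr (residue Q) z u → Pr (residue Q) z' u' →
      u' ≠ 0 → (V.valuation z ≤ V.valuation z' ↔ U.valuation u ≤ U.valuation u') := by
    intro z z' u u' h h' hu'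
    have hz' : z' ≠ 0 := h'.ne_zero hu'
    have h1 := hprV (h.mul (h'.inv hu'))
    rw [← V.valuation_le_one_iff, ← U.valuation_le_one_iff, map_mul, map_mul, map_inv₀,
      map_inv₀, ← div_eq_mul_inv, ← div_eq_mul_inv,
      div_le_one₀ (zero_lt_iff.2 ((map_ne_zero _).2 hz')),
      div_le_one₀ (zero_lt_iff.2 ((map_ne_zero _).2 hu'))] at h1
    exact h1
  have hπr : Pr (residue Q) π (ρ ⟨π, hπ⟩) := hρr ⟨π, hπ⟩
  have hπu : ρ ⟨π, hπ⟩ ≠ 0 := by
    intro h
    exact nu_iff.2 ((hpr0 hπr).1 h) ⟨hπ0, hπ₁⟩
  -- the image of the coordinate ring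
  let Tb : Set (ResidueField Q) := (fun v => rs (v / w)) '' W
  have hTb : Tb.Finite := hW.image _
  have hch : im (residue Q) (chart O W w) = Pool.Agent.R187.CT.rg ρ Tb := by
    unfold chart
    refine im_closure ?_ ?_
    · rintro u (hu | ⟨v, hv, rfl⟩)
      · exact ⟨ρ ⟨u, hu⟩, Or.inl ⟨⟨u, hu⟩, rfl⟩, hρr ⟨u, hu⟩⟩
      · exact ⟨rs (v / w), Or.inr ⟨v, hv, rfl⟩,
          hrs _ (hAQ (Subring.subset_closure (Or.inr ⟨v, hv, rfl⟩)))⟩
    · rintro u (⟨a, rfl⟩ | ⟨v, hv, rfl⟩)
      · exact ⟨a, Or.inl a.2, hρr a⟩
      · exact ⟨v / w, Or.inr ⟨v, hv, rfl⟩,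
          hrs _ (hAQ (Subring.subset_closure (Or.inr ⟨v, hv, rfl⟩)))⟩
  have himU : im (residue Q) (chart O W w) ≤ U.toSubring := by
    rintro u ⟨z, hz, h⟩
    exact (hprV h).1 (hA hz)
  have himF : ∀ u : ResidueField Q, ∃ a ∈ im (residue Q) (chart O W w),
      ∃ b ∈ im (residue Q) (chart O W w), b ≠ 0 ∧ u = a * b⁻¹ := by
    intro u
    obtain ⟨⟨z, hz⟩, rfl⟩ := residue_surjective (R := Q) u
    have hz' := hz
    rw [← hQ] at hz'
    obtain ⟨a, ha, b, hb, hb0, hbV, hab⟩ := hz'
    have h1 := hrs a (hAQ ha)
    have h2 := hrs b (hAQ hb)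
    have h3 : rs b ≠ 0 := fun h => nu_iff.2 ((hpr0 h2).1 h) ⟨hb0, hbV⟩
    refine ⟨rs a, ⟨a, ha, h1⟩, rs b, ⟨b, hb, h2⟩, h3, ?_⟩
    have h4 : Pr (residue Q) z (residue Q ⟨z, hz⟩) := Pool.Agent.W5h94.SP.q_pr hz
    refine h4.unique ?_
    rw [hab]
    exact h1.mul (h2.inv h3)
  have hnoeb : IsNoetherianRing (im (residue Q) (chart O W w)) := by
    rw [hch]
    exact Pool.Agent.R187.CT.noe_rg hR ρ hTb
  have hLU : LogUnif U (im (residue Q) (chart O W w)) :=
    (hUr.good hR).logUnif hR hTb himU hch.ge
      (fun b hb => ⟨b, by rw [← hch]; exact hb, 1, Subring.one_mem _, one_ne_zero,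
        by rw [inv_one]; exact Subring.one_mem _, by rw [inv_one, mul_one]⟩) himF
  have hSU : Pool.Agent.H176.DT.SU U (im (residue Q) (chart O W w)) :=
    Pool.Agent.H176.DT.p_base _ _ ⟨himU, himF⟩ hLU
  have hN : IsNoetherianRing (chart O W w) := by
    have hrange : ((O.subtype.range : Subring K) : Set K) = (O : Set K) := by
      ext z
      simp
    have hch' : chart O W w = Pool.Agent.R187.CT.rg O.subtype {z | ∃ y ∈ W, z = y / w} := by
      change _ = Subring.closure (((O.subtype.range : Subring K) : Set K) ∪ _)
      rw [hrange]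
      rfl
    have hT : ({z | ∃ y ∈ W, z = y / w} : Set K).Finite := by
      refine (hW.image fun y => y / w).subset ?_
      rintro z ⟨y, hy, rfl⟩
      exact ⟨y, hy, rfl⟩
    rw [hch']
    exact Pool.Agent.R187.CT.noe_rg hR _ hT
  obtain ⟨T, s, x, xb, hSt, hxV, hind, hmon, hxr⟩ := Pool.Agent.W5h94.SP.lift_SU hVV hmV hA Q hQ U
    hU hSU (hOA π hπ) hπ0 hπ₁
  have hxb0 : ∀ i, xb i ≠ 0 := fun i => (hxr i).1
  have hx0 : ∀ i, x i ≠ 0 := fun i => (hxr i).2.ne_zero (hxb0 i)
  have hmor : ∀ δ : Fin s → ℤ, Pr (residue Q) (mo x δ) (mo xb δ) := fun δ =>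
    Pr.mo (fun i => (hxr i).2) hxb0 δ
  have hmob0 : ∀ δ : Fin s → ℤ, mo xb δ ≠ 0 := fun δ => mo_ne_zero hxb0 δ
  -- the local ring of the stage is contained in `Q`
  have hxV₁ : ∀ i, (x i)⁻¹ ∈ V₁ := fun i =>
    hQV₁ (Pool.Agent.W5h94.SP.q_mem ((hxr i).2.inv (hxb0 i)))
  have hPQ : Pool.Agent.H176.DT.PP V (chart O W w) T ≤ Q := by
    obtain ⟨β, hβ, ⟨v, hv0, hv1, hv2, γ, hγ⟩, hβT, -⟩ := hSt.den
    have hβ0 : β ≠ 0 := by
      rw [hγ]
      exact mul_ne_zero hv0 (mo_ne_zero hx0 _)
    have hβi : β⁻¹ ∈ Q := by
      refine hQi β (hAQ hβ) hβ0 ?_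
      rw [hγ, mul_inv]
      refine V₁.toSubring.mul_mem (hVV (hSt.reg.PA hv2)) ?_
      exact hQV₁ (Pool.Agent.W5h94.SP.q_mem ((hmor γ).inv (hmob0 γ)))
    have hcl : Subring.closure ((chart O W w : Set K) ∪ T) ≤ Q := by
      rw [Subring.closure_le]
      rintro t (ht | ht)
      · exact hAQ ht
      · have h1 : t = β * t * β⁻¹ := by
          field_simp
        rw [h1]
        exact Q.mul_mem (hAQ (hβT t ht)) hβi
    rintro _ ⟨a, ha, b, hb, hb0, hbV, rfl⟩
    exact Q.mul_mem (hcl ha) (hQi b (hcl hb) hb0 (hVV hbV))
  obtain ⟨D, N₀, cc, hD, hζ', h3⟩ := Pool.Agent.W5h94.WP.ss_main9 V O hOV hW hw hw0 hwV hMod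
    π hπ0 hπ1 hSt hxV hind hmon (by
      intro i
      obtain ⟨n, hn⟩ := (hV₁ _).1 (hxV₁ i)
      refine ⟨n, ?_⟩
      rw [← V.valuation_le_one_iff, map_mul, map_pow, map_inv₀, ← div_eq_mul_inv,
        div_le_one₀ (zero_lt_iff.2 ((map_ne_zero _).2 (hx0 i)))] at hn
      exact hn) (by
      intro q hq hq1 a ha δ
      have hqr : Pr (residue Q) (q : K) (q : ResidueField Q) := by
        have h1 := Pr.alg (F := K) (φ := residue Q) (q : Q)
        rwa [map_natCast, map_natCast] at h1
      have hq2 : U.valuation (q : ResidueField Q) < 1 := by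
        by_contra hcon
        push Not at hcon
        have h1 : (q : ResidueField Q) ≠ 0 := by
          intro h
          rw [h, map_zero] at hcon
          exact absurd hcon (not_le.2 zero_lt_one)
        have h2 := (hval Pr.one hqr h1).2 (by rwa [map_one])
        rw [map_one] at h2
        exact absurd hq1 (not_lt.2 h2)
      have h1 := ((hrs a (hPQ ha)).mul (hmor δ)).pow q
      have h2 := hπr.add h1.neg
      rw [← sub_eq_add_neg, ← sub_eq_add_neg] at h2
      have h3 := hlead q hq hq2 (rs a * mo xb δ)
      refine (hval hπr h2 ?_).2 h3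
      intro h4
      rw [h4, map_zero, le_zero_iff, map_eq_zero] at h3
      exact hπu h3)
  refine ⟨D, N₀ + 1, mo xb cc, hD, hmob0 cc, fun n => ?_, fun N hN' hdN =>
    ⟨Pool.Agent.H176.DT.exists_root _ _ (by omega), ?_⟩⟩
  · have h1 : Pr (residue Q) (π / mo x cc ^ D) (ρ ⟨π, hπ⟩ / mo xb cc ^ D) := by
      rw [div_eq_mul_inv, div_eq_mul_inv]
      exact hπr.mul (((hmor cc).pow D).inv (pow_ne_zero _ (hmob0 cc)))
    have h2 : ρ ⟨π, hπ⟩ / mo xb cc ^ D ≠ 0 := div_ne_zero hπu (pow_ne_zero _ (hmob0 cc))
    refine (hval hπr (h1.zpow h2 n) (zpow_ne_zero _ h2)).1 ?_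
    rw [map_zpow₀]
    exact hζ' n
  have hN₀ : N₀ ≤ N := by omega
  rintro K' _ _ V' ϖ ⟨hV', hϖ, hgen⟩
  obtain ⟨Y, d', n', h4, h5, h6, w', h7, h8, h9, P, h10, h11⟩ := h3 N hN₀ hdN V' ϖ hV' hϖ hgen
  have h12 : ramifiedRing (algebraMap K K') O ϖ = Pool.Agent.H176.DT.Orm O ϖ := rfl
  rw [h12]
  refine ⟨Y, ⟨h4, d', n', h5, h6⟩, w', h7, h8, h9, ?_⟩
  have h13 : centreRing V' (chart (Pool.Agent.H176.DT.Orm O ϖ)
      (blowUpCoordinates (algebraMap K K' '' W) Y) w') = P := h10
  rw [h13]
  exact h11

/-- Let `V` be a valuation ring of the field `K`. Let `O ⊆ V` be a Dedekind domain which has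
characteristic zero or is `F`-finite (for example, `O = k°` for a discretely valued field `k`), and
let `π ∈ O` be a nonzero element with `|π| < 1` (for example, a uniformizer of `k`). Let `𝒳` be an
integral projective `O`-scheme with function field `K` and with the homogeneous coordinates `W`; let
the chart `w ≠ 0` contain the centre of `V`. Let `V₁ = V[1 / π]`, and let `Z` be the centre of `V₁`
on `𝒳` (on the fibre `X` where `π` is invertible). Suppose that `X` is regular at (the generic point
of) `Z`. Let `U` be the valuation ring of the residue field `κ(Z)` which is induced by `V`; so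
`(Z, U)` is a point of `X^ad`. Let `U` be reachable over `O`. Let `p` be the residue characteristic
of `U`. Suppose that `|π|` is a `p`-th power in the value group of `U`, but that the leading form of
`π` is not a `p`-th power: `|π| ≤ |π - z ^ p|` for all `z` in `κ(Z)`.

Then there are `D > 0`, `N₀` and `ζ ≠ 0` in `κ(Z)` such that `π / ζ ^ D` is infinitesimal (the
absolute values of its powers are not smaller than `|π|`), and for all `N ≥ N₀` divisible by `D`
there are `K' = K(ϖ)`, `ϖ ^ N = π`, and valuation rings `V'` of `K'` over `V`, and for all such `K'`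
and `V'` there is a closed subscheme of the fibre of `𝒳 ⊗ O[ϖ]` over `ϖ = 0` such that the
blowing-up in this subscheme (the component with the function field `K'` if `K ⊗ k(ϖ)` is not a
field) is semistable at the centre of `V'`. -/
theorem result {K : Type u} [Field K] (V : ValuationSubring K)
    (O : Subring K) [IsDedekindDomain O] (hO : CharZero O ∨ IsFFinite O) (hOV : ∀ a ∈ O, a ∈ V)
    (π : O) (hπ0 : π ≠ 0) (hπ1 : V.valuation (π : K) < 1)
    (W : Set K) (hW : W.Finite) (w : K) (hw : w ∈ W) (hw0 : w ≠ 0)
    (hwV : ∀ z ∈ W, z / w ∈ V) (hWK : HasFractionField (chart O W w))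
    (V₁ : ValuationSubring K) (Q : Subring K) [IsRegularLocalRing Q]
    (U : ValuationSubring (ResidueField Q)) (ρ : O →+* ResidueField Q)
    (hVU : Induces V O π W w V₁ Q U ρ) (hU : Reachable O ρ U)
    (_hwild : ∃ p : ℕ, p.Prime ∧ U.valuation (p : ResidueField Q) < 1 ∧
      ∃ z, U.valuation (z ^ p) = U.valuation (ρ π))
    (hlead : ∀ p : ℕ, p.Prime → U.valuation (p : ResidueField Q) < 1 →
      ∀ z, U.valuation (ρ π) ≤ U.valuation (ρ π - z ^ p)) :
    ∃ (D N₀ : ℕ) (ζ : ResidueField Q), 0 < D ∧ ζ ≠ 0 ∧
      (∀ n : ℤ, U.valuation (ρ π) ≤ U.valuation ((ρ π / ζ ^ D) ^ n)) ∧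
      ∀ N : ℕ, N₀ ≤ N → D ∣ N → HasSemistableBlowUps V O π W N := by
  obtain ⟨D, N₀, ζ, hD, hζ, h1, h2⟩ := core V V₁ O hO hOV (π : K) π.2
    (fun h => hπ0 (Subtype.ext h)) hπ1 hVU.mem_iff W hW w hw hw0 hwV hWK Q hVU.eq U
    hVU.residue_mem_iff ρ hVU.map_eq hU hlead
  refine ⟨D, N₀, ζ, hD, hζ, h1, fun N hN hd => ⟨(h2 N hN hd).1, ?_⟩⟩
  intro K' _ _ V' ϖ h
  exact (h2 N hN hd).2 V' ϖ h

end Pool.Agent.Results.MP_1a953e_ag.WildPoints
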